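import Mathlib

set_option autoImplicit false

namespace Pool.Agent.Results.MP_03a7fb_al.ExpExample

open MvPowerSeries

/-- the Laplace operator on `ℂ[[z_0, …, z_{n-1}]]` -/
noncomputable def Lap {n : ℕ} (f : MvPowerSeries (Fin n) ℂ) : MvPowerSeries (Fin n) ℂ :=
  ∑ i, pderiv ℂ i (pderiv ℂ i f)

/-- the Hessian matrix -/
noncomputable def Hes {n : ℕ} (f : MvPowerSeries (Fin n) ℂ) :
    Matrix (Fin n) (Fin n) (MvPowerSeries (Fin n) ℂ) :=
  Matrix.of fun i j => pderiv ℂ i (pderiv ℂ j f)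

/-- the power series `exp (z_0 + i z_1)` in four variables, by its coefficients -/
noncomputable def expU : MvPowerSeries (Fin 4) ℂ := fun m =>
  if m 2 = 0 ∧ m 3 = 0 then Complex.I ^ (m 1) / ((Nat.factorial (m 0) : ℂ) * Nat.factorial (m 1))
  else 0

/-- `v = z_0 - i z_1` -/
noncomputable def v : MvPowerSeries (Fin 4) ℂ := X 0 - C Complex.I * X 1

/-- `w = z_2 + i z_3` -/
noncomputable def w : MvPowerSeries (Fin 4) ℂ := X 2 + C Complex.I * X 3

/-- `P_d = (z_2 + i z_3)^d (z_0 - i z_1 + exp (z_0 + i z_1))` -/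
noncomputable def P (d : ℕ) : MvPowerSeries (Fin 4) ℂ := w ^ d * (v + expU)

theorem dE0 : pderiv ℂ 0 expU = expU := by
  ext m
  rw [coeff_pderiv]
  change expU (m + Finsupp.single 0 1) * _ = expU m
  unfold expU
  have h2 : (m + Finsupp.single (0 : Fin 4) 1 : Fin 4 →₀ ℕ) 2 = m 2 := by simp
  have h3 : (m + Finsupp.single (0 : Fin 4) 1 : Fin 4 →₀ ℕ) 3 = m 3 := by simp
  have h1 : (m + Finsupp.single (0 : Fin 4) 1 : Fin 4 →₀ ℕ) 1 = m 1 := by simp
  have h0 : (m + Finsupp.single (0 : Fin 4) 1 : Fin 4 →₀ ℕ) 0 = m 0 + 1 := by simp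
  rw [h2, h3, h1, h0]
  split_ifs
  · rw [Nat.factorial_succ]
    have : ((Nat.factorial (m 0) : ℕ) : ℂ) ≠ 0 := by exact_mod_cast Nat.factorial_ne_zero _
    have : ((Nat.factorial (m 1) : ℕ) : ℂ) ≠ 0 := by exact_mod_cast Nat.factorial_ne_zero _
    have : ((m 0 : ℂ) + 1) ≠ 0 := by exact_mod_cast Nat.succ_ne_zero (m 0)
    push_cast
    field_simp
  · ring

theorem dE1 : pderiv ℂ 1 expU = C Complex.I * expU := by
  ext m
  rw [coeff_pderiv, coeff_C_mul]
  change expU (m + Finsupp.single 1 1) * _ = _ * expU m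
  unfold expU
  have h2 : (m + Finsupp.single (1 : Fin 4) 1 : Fin 4 →₀ ℕ) 2 = m 2 := by simp
  have h3 : (m + Finsupp.single (1 : Fin 4) 1 : Fin 4 →₀ ℕ) 3 = m 3 := by simp
  have h1 : (m + Finsupp.single (1 : Fin 4) 1 : Fin 4 →₀ ℕ) 1 = m 1 + 1 := by simp
  have h0 : (m + Finsupp.single (1 : Fin 4) 1 : Fin 4 →₀ ℕ) 0 = m 0 := by simp
  rw [h2, h3, h1, h0]
  split_ifs
  · rw [Nat.factorial_succ]
    have : ((Nat.factorial (m 0) : ℕ) : ℂ) ≠ 0 := by exact_mod_cast Nat.factorial_ne_zero _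
    have : ((Nat.factorial (m 1) : ℕ) : ℂ) ≠ 0 := by exact_mod_cast Nat.factorial_ne_zero _
    have : ((m 1 : ℂ) + 1) ≠ 0 := by exact_mod_cast Nat.succ_ne_zero (m 1)
    push_cast
    field_simp
    ring
  · ring

theorem dE2 : pderiv ℂ 2 expU = 0 := by
  ext m
  rw [coeff_pderiv]
  change expU (m + Finsupp.single 2 1) * _ = 0
  unfold expU
  have h2 : (m + Finsupp.single (2 : Fin 4) 1 : Fin 4 →₀ ℕ) 2 = m 2 + 1 := by simp
  rw [h2]
  simp

theorem dE3 : pderiv ℂ 3 expU = 0 := by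
  ext m
  rw [coeff_pderiv]
  change expU (m + Finsupp.single 3 1) * _ = 0
  unfold expU
  have h2 : (m + Finsupp.single (3 : Fin 4) 1 : Fin 4 →₀ ℕ) 3 = m 3 + 1 := by simp
  rw [h2]
  simp

theorem dX (i j : Fin 4) : pderiv ℂ i (X j : MvPowerSeries (Fin 4) ℂ) = if i = j then 1 else 0 := by
  split_ifs with h
  · subst h; exact pderiv_X_self
  · exact pderiv_X_of_ne (Ne.symm h)

theorem dv0 : pderiv ℂ 0 v = 1 := by
  simp [v, dX]

theorem dv1 : pderiv ℂ 1 v = -C Complex.I := by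
  simp [v, dX]

theorem dv2 : pderiv ℂ 2 v = 0 := by
  simp [v, dX]

theorem dv3 : pderiv ℂ 3 v = 0 := by
  simp [v, dX]

theorem dw0 : pderiv ℂ 0 w = 0 := by
  simp [w, dX]

theorem dw1 : pderiv ℂ 1 w = 0 := by
  simp [w, dX]

theorem dw2 : pderiv ℂ 2 w = 1 := by
  simp [w, dX]

theorem dw3 : pderiv ℂ 3 w = C Complex.I := by
  simp [w, dX]


/-- the monomials `w^j v^k exp(l u)` -/
noncomputable def T (j k l : ℕ) : MvPowerSeries (Fin 4) ℂ := w ^ j * v ^ k * expU ^ l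

theorem dT_gen (i : Fin 4) (a b c : ℂ) (hw : pderiv ℂ i w = C a) (hv : pderiv ℂ i v = C b)
    (hE : pderiv ℂ i expU = C c * expU) (j k l : ℕ) :
    pderiv ℂ i (T j k l) =
      (a * j) • T (j - 1) k l + (b * k) • T j (k - 1) l + (c * l) • T j k l := by
  unfold T
  rw [Derivation.leibniz, Derivation.leibniz, Derivation.leibniz_pow, Derivation.leibniz_pow,
    Derivation.leibniz_pow, hw, hv, hE]
  simp only [smul_eq_mul, nsmul_eq_mul, smul_eq_C_mul, map_mul, map_natCast]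
  rcases l with _ | l
  · simp
    ring
  · simp
    ring

theorem dT0 (j k l : ℕ) : pderiv ℂ 0 (T j k l) = (k : ℂ) • T j (k - 1) l + (l : ℂ) • T j k l := by
  rw [dT_gen 0 0 1 1 (by rw [dw0, map_zero]) (by rw [dv0, map_one]) (by rw [dE0, map_one, one_mul])]
  simp

theorem dT1 (j k l : ℕ) : pderiv ℂ 1 (T j k l) =
    (-Complex.I * k) • T j (k - 1) l + (Complex.I * l) • T j k l := by
  rw [dT_gen 1 0 (-Complex.I) Complex.I (by rw [dw1, map_zero]) (by rw [dv1, map_neg]) dE1]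
  simp

theorem dT2 (j k l : ℕ) : pderiv ℂ 2 (T j k l) = (j : ℂ) • T (j - 1) k l := by
  rw [dT_gen 2 1 0 0 (by rw [dw2, map_one]) (by rw [dv2, map_zero]) (by rw [dE2, map_zero, zero_mul])]
  simp

theorem dT3 (j k l : ℕ) : pderiv ℂ 3 (T j k l) = (Complex.I * j) • T (j - 1) k l := by
  rw [dT_gen 3 Complex.I 0 0 dw3 (by rw [dv3, map_zero]) (by rw [dE3, map_zero, zero_mul])]
  simp

theorem lapT (j k l : ℕ) : Lap (T j k l) = (4 * (k : ℂ) * l) • T j (k - 1) l := by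
  unfold Lap
  rw [Fin.sum_univ_four, dT0, dT1, dT2, dT3]
  simp only [map_add, Derivation.map_smul, dT0, dT1, dT2, dT3, smul_add, smul_smul]
  have hI : Complex.I * Complex.I = -1 := Complex.I_mul_I
  have e1 : Complex.I * (j : ℂ) * (Complex.I * ((j - 1 : ℕ) : ℂ)) = - ((j : ℂ) * ((j - 1 : ℕ) : ℂ)) := by
    linear_combination (j : ℂ) * ((j - 1 : ℕ) : ℂ) * hI
  have e2 : -Complex.I * (k : ℂ) * (-Complex.I * ((k - 1 : ℕ) : ℂ)) =
      - ((k : ℂ) * ((k - 1 : ℕ) : ℂ)) := by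
    linear_combination (k : ℂ) * ((k - 1 : ℕ) : ℂ) * hI
  have e3 : -Complex.I * (k : ℂ) * (Complex.I * (l : ℂ)) = (k : ℂ) * l := by
    linear_combination - (k : ℂ) * l * hI
  have e4 : Complex.I * (l : ℂ) * (-Complex.I * (k : ℂ)) = (k : ℂ) * l := by
    linear_combination - (k : ℂ) * l * hI
  have e5 : Complex.I * (l : ℂ) * (Complex.I * (l : ℂ)) = - ((l : ℂ) * l) := by
    linear_combination (l : ℂ) * l * hI
  rw [e1, e2, e3, e4, e5]
  module

/-- the Laplace operator as a linear map -/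
noncomputable def L : MvPowerSeries (Fin 4) ℂ →ₗ[ℂ] MvPowerSeries (Fin 4) ℂ :=
  ∑ i, (pderiv ℂ i).toLinearMap ∘ₗ (pderiv ℂ i).toLinearMap

theorem L_apply (f : MvPowerSeries (Fin 4) ℂ) : L f = Lap f := by
  simp [L, Lap]

theorem L_pow (m : ℕ) (f : MvPowerSeries (Fin 4) ℂ) : (L ^ m) f = Lap^[m] f := by
  rw [Module.End.pow_apply]
  have : (L : MvPowerSeries (Fin 4) ℂ → MvPowerSeries (Fin 4) ℂ) = Lap := funext L_apply
  rw [this]

theorem L_pow_T (m j k l : ℕ) :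
    (L ^ m) (T j k l) = (4 ^ m * (Nat.descFactorial k m : ℂ) * l ^ m) • T j (k - m) l := by
  induction m with
  | zero => simp
  | succ m ih =>
    rw [pow_succ', Module.End.mul_apply, ih, map_smul, L_apply, lapT, smul_smul,
      Nat.descFactorial_succ, Nat.sub_sub]
    congr 1
    push_cast
    ring

theorem P_pow (d m : ℕ) : P d ^ (m + 1) =
    ∑ k ∈ Finset.range (m + 2), ((m + 1).choose k : ℂ) • T (d * (m + 1)) k (m + 1 - k) := by
  unfold P
  rw [mul_pow, add_pow, Finset.mul_sum, ← pow_mul]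
  apply Finset.sum_congr rfl
  intro k _
  unfold T
  rw [smul_eq_C_mul, map_natCast]
  ring

theorem lap_P (d m : ℕ) (hm : 1 ≤ m) : Lap^[m] (P d ^ (m + 1)) =
    (4 ^ m * (Nat.factorial (m + 1) : ℂ)) • (w ^ (d * (m + 1)) * expU) := by
  rw [← L_pow, P_pow, map_sum]
  rw [Finset.sum_range_succ, Finset.sum_range_succ]
  have h0 : ∑ k ∈ Finset.range m, (L ^ m) (((m + 1).choose k : ℂ) • T (d * (m + 1)) k (m + 1 - k)) = 0 := by
    apply Finset.sum_eq_zero
    intro k hk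
    rw [Finset.mem_range] at hk
    rw [map_smul, L_pow_T, Nat.descFactorial_of_lt hk]
    simp
  rw [h0, map_smul, map_smul, L_pow_T, L_pow_T]
  have h1 : m + 1 - (m + 1) = 0 := by omega
  have h2 : m + 1 - m = 1 := by omega
  rw [h1, h2, Nat.descFactorial_self]
  have h3 : (((0 : ℕ) : ℂ)) ^ m = 0 := by
    rw [Nat.cast_zero, zero_pow (by omega)]
  rw [h3]
  simp only [T, Nat.choose_succ_self_right, Nat.sub_self, pow_zero, pow_one, mul_one, mul_zero,
    zero_smul, smul_zero, add_zero, zero_add, smul_smul, Nat.cast_one, one_pow]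
  congr 1
  rw [Nat.factorial_succ]
  push_cast
  ring

theorem expU_ne : expU ≠ 0 := by
  intro h
  have : coeff 0 expU = 0 := by rw [h]; simp
  have h2 : coeff 0 expU = 1 := by
    change expU 0 = 1
    unfold expU
    simp
  rw [h2] at this
  exact one_ne_zero this

theorem w_ne : w ≠ 0 := by
  intro h
  have h1 := dw2
  rw [h, map_zero] at h1
  exact zero_ne_one h1

theorem lap_P_ne (d m : ℕ) (hm : 1 ≤ m) : Lap^[m] (P d ^ (m + 1)) ≠ 0 := by
  rw [lap_P d m hm]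
  apply smul_ne_zero
  · apply mul_ne_zero
    · exact pow_ne_zero _ (by norm_num)
    · exact_mod_cast Nat.factorial_ne_zero _
  · exact mul_ne_zero (pow_ne_zero _ w_ne) expU_ne

theorem P_T (d : ℕ) : P d = T d 1 0 + T d 0 1 := by
  unfold P T
  ring

theorem dP0 (d : ℕ) : pderiv ℂ 0 (P d) = T d 0 0 + T d 0 1 := by
  rw [P_T, map_add, dT0, dT0]; simp

theorem iter_d0 (d N : ℕ) : (pderiv ℂ 0)^[N + 2] (P d) = T d 0 1 := by
  induction N with
  | zero =>
    change pderiv ℂ 0 (pderiv ℂ 0 (P d)) = _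
    rw [dP0, map_add, dT0, dT0]; simp
  | succ N ih =>
    rw [show N + 1 + 2 = (N + 2) + 1 from rfl, Function.iterate_succ_apply', ih, dT0]; simp

theorem coeff_iter (f : MvPowerSeries (Fin 4) ℂ) (N : ℕ) (m : Fin 4 →₀ ℕ)
    (h : coeff (m + Finsupp.single 0 N) f = 0) : coeff m ((pderiv ℂ 0)^[N] f) = 0 := by
  induction N generalizing f with
  | zero => simpa using h
  | succ N ih =>
    rw [Function.iterate_succ_apply]
    apply ih
    rw [coeff_pderiv]
    have : m + Finsupp.single 0 N + Finsupp.single 0 1 = m + Finsupp.single (0 : Fin 4) (N + 1) := by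
      rw [add_assoc, ← Finsupp.single_add]
    rw [this, h, zero_mul]

theorem not_poly (d : ℕ) : ∀ q : MvPolynomial (Fin 4) ℂ, (q : MvPowerSeries (Fin 4) ℂ) ≠ P d := by
  intro q hq
  have hT : T d 0 1 ≠ 0 := by
    unfold T
    simpa using mul_ne_zero (pow_ne_zero d w_ne) expU_ne
  have h1 : ∃ m0, coeff m0 (T d 0 1) ≠ 0 := by
    by_contra hc
    push Not at hc
    apply hT
    ext m
    rw [hc m]; simp
  obtain ⟨m0, hm0⟩ := h1
  have h2 : ∀ N : ℕ, m0 + Finsupp.single 0 (N + 2) ∈ q.support := by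
    intro N
    rw [MvPolynomial.mem_support_iff]
    intro hc
    apply hm0
    rw [← iter_d0 d N]
    apply coeff_iter
    rw [← hq, MvPolynomial.coeff_coe]
    exact hc
  refine (Set.infinite_of_injective_forall_mem (f := fun N : ℕ => m0 + Finsupp.single 0 (N + 2))
    ?_ h2) q.support.finite_toSet
  intro a b hab
  have h3 := add_left_cancel hab
  have h4 := DFunLike.congr_fun h3 0
  simpa using h4

theorem order_P (d : ℕ) : (d : ℕ∞) ≤ (P d).order := by
  have h1 : (d : ℕ∞) ≤ (w ^ d).order := by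
    apply le_order_pow_of_constantCoeff_eq_zero
    simp [w]
  calc (d : ℕ∞) ≤ (w ^ d).order := h1
    _ ≤ (w ^ d).order + (v + expU).order := le_self_add
    _ ≤ (P d).order := le_order_mul

section Matrix

variable {R : Type*} [CommRing R] (i : R) (hI : i * i = -1)

/-- the shape of the Hessian matrix -/
def M (A S Q D : R) : Matrix (Fin 4) (Fin 4) R :=
  !![A, i * A, S, i * S; i * A, -A, i * Q, -Q; S, i * Q, D, i * D; i * S, -Q, i * D, -D]

include hI in
theorem M_sq (A S Q D : R) :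
    M i A S Q D * M i A S Q D = M i 0 (A * (S - Q)) (A * (S - Q)) (S * S - Q * Q) := by
  ext a b
  fin_cases a <;> fin_cases b <;>
    simp [M, Matrix.mul_apply, Fin.sum_univ_four] <;> grind

include hI in
theorem M_four (A S Q D : R) : (M i A S Q D) ^ 4 = 0 := by
  have : (M i A S Q D) ^ 4 = (M i A S Q D * M i A S Q D) * (M i A S Q D * M i A S Q D) := by
    noncomm_ring
  rw [this, M_sq i hI, M_sq i hI]
  ext a b
  fin_cases a <;> fin_cases b <;> simp [M]

end Matrix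

theorem dP1 (d : ℕ) : pderiv ℂ 1 (P d) = (-Complex.I) • T d 0 0 + Complex.I • T d 0 1 := by
  rw [P_T, map_add, dT1, dT1]; simp

theorem dP2 (d : ℕ) : pderiv ℂ 2 (P d) = (d : ℂ) • T (d - 1) 1 0 + (d : ℂ) • T (d - 1) 0 1 := by
  rw [P_T, map_add, dT2, dT2]

theorem dP3 (d : ℕ) : pderiv ℂ 3 (P d) =
    (Complex.I * d) • T (d - 1) 1 0 + (Complex.I * d) • T (d - 1) 0 1 := by
  rw [P_T, map_add, dT3, dT3]

theorem hes_nilp (d : ℕ) : Hes (P d) ^ 4 = 0 := by
  have hI : (C Complex.I : MvPowerSeries (Fin 4) ℂ) * C Complex.I = -1 := by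
    rw [← map_mul, Complex.I_mul_I, map_neg, map_one]
  have : Hes (P d) = M (C Complex.I) (T d 0 1) ((d : ℂ) • T (d - 1) 0 1 + (d : ℂ) • T (d - 1) 0 0)
      ((d : ℂ) • T (d - 1) 0 1 - (d : ℂ) • T (d - 1) 0 0)
      (((d : ℂ) * ((d - 1 : ℕ) : ℂ)) • (T (d - 1 - 1) 1 0 + T (d - 1 - 1) 0 1)) := by
    ext1 a b
    fin_cases a <;> fin_cases b <;>
    simp only [Hes, M, Matrix.of_apply, Fin.zero_eta, Fin.mk_one, Fin.reduceFinMk, dP0, dP1, dP2,
      dP3, map_add, Derivation.map_smul, dT0, dT1, dT2, dT3, Matrix.cons_val] <;>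
    simp [smul_eq_C_mul] <;> grind
  rw [this]
  exact M_four _ hI _ _ _ _

/-- For every `d`, the power series
`P_d = (z_2 + i z_3)^d (z_0 - i z_1 + exp (z_0 + i z_1))` in four variables over `ℂ` has order at
least `d`, is not a polynomial, has nilpotent Hessian matrix, and satisfies
`Δ^m P_d^(m+1) ≠ 0` for every `m ≥ 1`. -/
theorem result : ∀ d : ℕ,
    (d : ℕ∞) ≤ (P d).order ∧
    (∀ q : MvPolynomial (Fin 4) ℂ, (q : MvPowerSeries (Fin 4) ℂ) ≠ P d) ∧
    IsNilpotent (Hes (P d)) ∧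
    ∀ m : ℕ, 1 ≤ m → Lap^[m] (P d ^ (m + 1)) ≠ 0 :=
  fun d => ⟨order_P d, not_poly d, ⟨4, hes_nilp d⟩, fun m hm => lap_P_ne d m hm⟩

end Pool.Agent.Results.MP_03a7fb_al.ExpExample
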